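import Pool.Agent.U6.EK.Stm

/-!
# Project EK, package GEN: the generating function of the elementary symmetric sums, truncated
-/

set_option autoImplicit false

namespace Pool.Agent.U123.EK

open Finset
open Pool.Agent.U923.PP (es)

theorem t_GEN : Pool.Agent.U6.EK.T_GEN := by
  intro P q t K hq
  have e1 : ∏ p ∈ P, (1 + t * (q p : ℂ)) = ∑ T ∈ P.powerset, ∏ p ∈ T, (t * (q p : ℂ)) :=
    Finset.prod_one_add (s := P) (f := fun p => t * (q p : ℂ))
  have e2 : ∑ k ∈ range K, t ^ k * ((es P q k : ℝ) : ℂ) =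
      ∑ T ∈ P.powerset.filter (fun T => T.card < K), ∏ p ∈ T, (t * (q p : ℂ)) := by
    rw [← Finset.sum_fiberwise_of_maps_to (s := P.powerset.filter (fun T => T.card < K))
      (t := range K) (g := fun T => T.card)
      (fun T hT => mem_range.2 (mem_filter.1 hT).2)]
    refine sum_congr rfl fun k hk => ?_
    have hs : ((P.powerset.filter (fun T => T.card < K)).filter fun T => T.card = k) =
        P.powersetCard k := by
      ext T
      rw [mem_filter, mem_filter, mem_powerset, mem_powersetCard]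
      constructor
      · rintro ⟨⟨h1, h2⟩, h3⟩
        exact ⟨h1, h3⟩
      · rintro ⟨h1, h3⟩
        exact ⟨⟨h1, h3 ▸ mem_range.1 hk⟩, h3⟩
    rw [hs]
    unfold Pool.Agent.U923.PP.es
    push_cast
    rw [mul_sum]
    refine sum_congr rfl fun T hT => ?_
    rw [prod_mul_distrib, prod_const, (mem_powersetCard.1 hT).2]
  have e3 : ∏ p ∈ P, (1 + t * (q p : ℂ)) - ∑ k ∈ range K, t ^ k * ((es P q k : ℝ) : ℂ) =
      ∑ T ∈ P.powerset.filter (fun T => ¬ T.card < K), ∏ p ∈ T, (t * (q p : ℂ)) := by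
    rw [e1, e2, ← sum_filter_add_sum_filter_not P.powerset (fun T => T.card < K)]
    ring
  rw [e3]
  have hn : 0 ≤ ‖t‖ := norm_nonneg t
  calc ‖∑ T ∈ P.powerset.filter (fun T => ¬ T.card < K), ∏ p ∈ T, (t * (q p : ℂ))‖
      ≤ ∑ T ∈ P.powerset.filter (fun T => ¬ T.card < K), ‖∏ p ∈ T, (t * (q p : ℂ))‖ :=
        norm_sum_le _ _
    _ ≤ ∑ T ∈ P.powerset.filter (fun T => ¬ T.card < K),
          (1 / 2) ^ K * ∏ p ∈ T, (2 * ‖t‖ * q p) := by
        refine sum_le_sum fun T hT => ?_
        obtain ⟨h1, h2⟩ := mem_filter.1 hT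
        have h3 := mem_powerset.1 h1
        have h4 : K ≤ T.card := not_lt.1 h2
        have h5 : ‖∏ p ∈ T, (t * (q p : ℂ))‖ = ∏ p ∈ T, (‖t‖ * q p) := by
          rw [norm_prod]
          refine prod_congr rfl fun p hp => ?_
          rw [norm_mul, Complex.norm_real, Real.norm_of_nonneg (hq p (h3 hp))]
        have h6 : ∏ p ∈ T, (2 * ‖t‖ * q p) = 2 ^ T.card * ∏ p ∈ T, (‖t‖ * q p) := by
          rw [← prod_const, ← prod_mul_distrib]
          refine prod_congr rfl fun p _ => ?_
          ring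
        have h7 : 0 ≤ ∏ p ∈ T, (‖t‖ * q p) :=
          prod_nonneg fun p hp => mul_nonneg hn (hq p (h3 hp))
        have h8 : (1 : ℝ) ≤ (1 / 2) ^ K * 2 ^ T.card := by
          have h9 : (2 : ℝ) ^ K ≤ 2 ^ T.card := pow_le_pow_right₀ (by norm_num) h4
          calc (1 : ℝ) = (1 / 2) ^ K * 2 ^ K := by rw [← mul_pow]; norm_num
            _ ≤ (1 / 2) ^ K * 2 ^ T.card := mul_le_mul_of_nonneg_left h9 (by positivity)
        rw [h5, h6, ← mul_assoc]
        exact le_mul_of_one_le_left h7 h8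
    _ ≤ ∑ T ∈ P.powerset, (1 / 2) ^ K * ∏ p ∈ T, (2 * ‖t‖ * q p) := by
        refine sum_le_sum_of_subset_of_nonneg (filter_subset _ _) fun T hT _ => ?_
        refine mul_nonneg (by positivity) (prod_nonneg fun p hp => ?_)
        exact mul_nonneg (mul_nonneg (by norm_num) hn) (hq p (mem_powerset.1 hT hp))
    _ = (1 / 2) ^ K * ∏ p ∈ P, (1 + 2 * ‖t‖ * q p) := by
        rw [← mul_sum, Finset.prod_one_add]
    _ ≤ (1 / 2) ^ K * Real.exp (2 * ‖t‖ * ∑ p ∈ P, q p) := by
        refine mul_le_mul_of_nonneg_left ?_ (by positivity)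
        rw [mul_sum, Real.exp_sum]
        refine prod_le_prod (fun p hp => ?_) fun p hp => ?_
        · have := mul_nonneg (mul_nonneg (by norm_num : (0:ℝ) ≤ 2) hn) (hq p hp)
          linarith
        · have := Real.add_one_le_exp (2 * ‖t‖ * q p)
          linarith

end Pool.Agent.U123.EK
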